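import Pool.Agent.Helper64.CT.Stmts

set_option autoImplicit false

namespace Pool.Agent.Helper63.CT

open Pool.Agent.Helper64.CT
open Pool.Agent.Helper64.HG (Ovl)

/-- position on the crossed chord -/
noncomputable def mm {V : Type} (l r : V → ℝ) (n u : V) : ℝ :=
  if l u < l n then r u else l u

theorem pairA {V : Type} (G : SimpleGraph V) (S : Set V) (l r : V → ℝ) (h : MOn G S l r)
    {n u v : V} (hn : n ∈ S) (hu : u ∈ S) (hv : v ∈ S) (au : G.Adj n u) (av : G.Adj n v)
    (hne : u ≠ v) (huv : ¬ G.Adj u v) :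
    mm l r n u ≠ mm l r n v ∧ (l u < l n → (Ins l r u v ↔ mm l r n v < mm l r n u)) ∧
      (¬ l u < l n → (Ins l r u v ↔ mm l r n u < mm l r n v)) := by
  have l1 := h.lt n hn
  have l2 := h.lt u hu
  have l3 := h.lt v hv
  have e1 : l u ≠ l v := fun e => hne (h.injl u hu v hv e)
  have e2 : r u ≠ r v := fun e => hne (h.injr u hu v hv e)
  have e3 := h.ne u hu v hv
  have e4 := h.ne v hv u hu
  have o1 : Ovl l r n u := (h.adj n hn u hu).1 au
  have o2 : Ovl l r n v := (h.adj n hn v hv).1 av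
  have o3 : ¬ Ovl l r u v := fun o => huv ((h.adj u hu v hv).2 o)
  unfold Ovl at o1 o2 o3
  unfold mm Ins
  by_cases c1 : l u < l n
  · by_cases c2 : l v < l n
    · rw [if_pos c1, if_pos c2]
      refine ⟨e2, fun _ => ⟨fun k => k.2, fun k => ⟨?_, k⟩⟩, fun k => absurd c1 k⟩
      by_contra hcon
      have h1 : l v < l u := lt_of_le_of_ne (not_lt.1 hcon) (Ne.symm e1)
      refine o3 (Or.inr ⟨h1, ?_, k⟩)
      rcases o2 with o2 | o2 <;> linarith [o2.1, o2.2.1, o2.2.2]
    · rw [if_pos c1, if_neg c2]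
      refine ⟨fun e => e4 e.symm, fun _ => ?_, fun k => absurd c1 k⟩
      have h1 : l u < l v := lt_of_lt_of_le c1 (not_lt.1 c2)
      constructor
      · intro k
        linarith [k.1, k.2]
      · intro k
        refine ⟨h1, ?_⟩
        by_contra hcon
        exact o3 (Or.inl ⟨h1, k, lt_of_le_of_ne (not_lt.1 hcon) e2⟩)
  · by_cases c2 : l v < l n
    · rw [if_neg c1, if_pos c2]
      refine ⟨e3, fun k => absurd k c1, fun _ => ?_⟩
      have h1 : l v < l u := lt_of_lt_of_le c2 (not_lt.1 c1)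
      constructor
      · intro k
        linarith [k.1, k.2]
      · intro k
        exfalso
        refine o3 (Or.inr ⟨h1, k, ?_⟩)
        rcases o2 with o2 | o2 <;> rcases o1 with o1 | o1 <;>
          linarith [o2.1, o2.2.1, o2.2.2, o1.1, o1.2.1, o1.2.2]
    · rw [if_neg c1, if_neg c2]
      refine ⟨e1, fun k => absurd k c1, fun _ => ⟨fun k => k.1, fun k => ⟨k, ?_⟩⟩⟩
      by_contra hcon
      refine o3 (Or.inl ⟨k, ?_, lt_of_le_of_ne (not_lt.1 hcon) e2⟩)
      rcases o2 with o2 | o2 <;> rcases o1 with o1 | o1 <;>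
        linarith [o2.1, o2.2.1, o2.2.2, o1.1, o1.2.1, o1.2.2, not_lt.1 c1, not_lt.1 c2]

theorem sepC {V : Type} (G : SimpleGraph V) (S : Set V) (l r : V → ℝ) (h : MOn G S l r)
    {n a b c : V} (hn : n ∈ S) (ha : a ∈ S) (hb : b ∈ S) (hc : c ∈ S) (aa : G.Adj n a)
    (ab : G.Adj n b) (ac : G.Adj n c) (n1 : c ≠ a) (n2 : c ≠ b) (h1 : ¬ G.Adj c a)
    (h2 : ¬ G.Adj c b) :
    (¬ (Ins l r c a ↔ Ins l r c b)) ↔
      ¬ (mm l r n a < mm l r n c ↔ mm l r n b < mm l r n c) := by
  obtain ⟨d1, p1, p2⟩ := pairA G S l r h hn hc ha ac aa n1 h1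
  obtain ⟨d2, q1, q2⟩ := pairA G S l r h hn hc hb ac ab n2 h2
  by_cases k : l c < l n
  · rw [p1 k, q1 k]
  · rw [p2 k, q2 k]
    have s1 : mm l r n c < mm l r n a ↔ ¬ mm l r n a < mm l r n c :=
      ⟨fun t => not_lt.2 t.le, fun t => lt_of_le_of_ne (not_lt.1 t) d1⟩
    have s2 : mm l r n c < mm l r n b ↔ ¬ mm l r n b < mm l r n c :=
      ⟨fun t => not_lt.2 t.le, fun t => lt_of_le_of_ne (not_lt.1 t) d2⟩
    rw [s1, s2, not_iff_not]
    exact not_iff_not

theorem st_GEX : ST_GEX := by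
  intro V G S l r h n hn a ha b hb c hc aa ab ac nab nac nbc hab hac hbc
  have hba : ¬ G.Adj b a := fun t => hab t.symm
  have hca : ¬ G.Adj c a := fun t => hac t.symm
  have hcb : ¬ G.Adj c b := fun t => hbc t.symm
  unfold Ex1
  rw [sepC G S l r h hn ha hb hc aa ab ac nac.symm nbc.symm hca hcb,
    sepC G S l r h hn hb hc ha ab ac aa nab nac hab hac,
    sepC G S l r h hn ha hc hb aa ac ab nab.symm nbc hba hbc]
  have d1 := (pairA G S l r h hn ha hb aa ab nab hab).1
  have d2 := (pairA G S l r h hn ha hc aa ac nac hac).1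
  have d3 := (pairA G S l r h hn hb hc ab ac nbc hbc).1
  generalize mm l r n a = x at *
  generalize mm l r n b = y at *
  generalize mm l r n c = z at *
  rcases lt_or_gt_of_ne d1 with k1 | k1 <;> rcases lt_or_gt_of_ne d2 with k2 | k2 <;>
    rcases lt_or_gt_of_ne d3 with k3 | k3 <;>
    simp only [k1, k2, k3, k1.not_gt, k2.not_gt, k3.not_gt, not_lt.2, le_of_lt, iff_true, iff_false,
      true_iff, false_iff, not_true_eq_false, not_false_eq_true, and_true, true_and, and_false,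
      false_and, or_false, false_or, or_true, true_or, iff_self] <;>
    first | done | (exfalso; linarith)

end Pool.Agent.Helper63.CT
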